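import Pool.Agent.PST.StmtsU

/-!
# Squad PST, row SPS (helper70)
-/

open scoped PowerSeries

noncomputable section

namespace Pool.Agent.PST.U.H70

open Pool.Agent.PFD.D2 (Cdv)

theorem sps : SpsStmt := by
  intro R F _ _ c d hd
  have h1 : ∃ m : ℕ, (∀ j, ∃ s, PowerSeries.coeff j d = c.π ^ m * s) ∧
      ¬ ∀ j, ∃ s, PowerSeries.coeff j d = c.π ^ (m + 1) * s := by
    by_contra hcon
    push Not at hcon
    refine hd ?_
    have h2 : ∀ m : ℕ, ∀ j, ∃ s, PowerSeries.coeff j d = c.π ^ m * s := by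
      intro m
      induction m with
      | zero => exact fun j => ⟨PowerSeries.coeff j d, by rw [pow_zero, one_mul]⟩
      | succ m ih => exact hcon m ih
    ext j
    rw [map_zero]
    exact c.sep _ fun n => h2 n j
  obtain ⟨m, hm, hn⟩ := h1
  choose s hs using hm
  refine ⟨m, PowerSeries.mk s, ?_, ?_⟩
  · ext j
    rw [← map_pow, PowerSeries.coeff_C_mul, PowerSeries.coeff_mk, hs j]
  · intro h0
    refine hn fun j => ?_
    have h2 : c.κ (s j) = 0 := by
      have h3 := congrArg (PowerSeries.coeff j) h0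
      rw [PowerSeries.coeff_map, PowerSeries.coeff_mk, map_zero] at h3
      exact h3
    obtain ⟨t, ht⟩ := (c.ker _).1 h2
    refine ⟨t, ?_⟩
    rw [hs j, ht, pow_succ, mul_assoc]

end Pool.Agent.PST.U.H70
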