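import Pool.Agent.PST.StmtsET2

/-!
# Squad PST, block ET, row CFD (helper70): `1 - prj` is a trace from the trivial subgroup
-/

open scoped BigOperators

noncomputable section

namespace Pool.Agent.PST.ET.H70

open Pool.Agent.PFC (Fx BK cj bi tw PS Frm PMid IsFr)
open Finset

section prjs

variable {F V H : Type} [Field F] [CommGroup V] [Fintype V] [DecidableEq V] [Ring H] [Algebra F H]
  {α : V →* H} {lam : H →ₗ[F] F}

omit [DecidableEq V] in
theorem prj_add (a b : H) : prj α lam (a + b) = prj α lam a + prj α lam b := by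
  simp only [prj]
  rw [← Finset.sum_add_distrib]
  refine Finset.sum_congr rfl fun u _ => ?_
  rw [mul_add, map_add, add_smul]

omit [DecidableEq V] in
theorem prj_smul (r : F) (a : H) : prj α lam (r • a) = r • prj α lam a := by
  simp only [prj]
  rw [Finset.smul_sum]
  refine Finset.sum_congr rfl fun u _ => ?_
  rw [mul_smul_comm, map_smul, smul_eq_mul, mul_smul]

omit [DecidableEq V] in
theorem prj_zero : prj α lam (0 : H) = 0 := by
  have h := prj_smul (α := α) (lam := lam) (0 : F) (0 : H)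
  rwa [zero_smul, zero_smul] at h

omit [DecidableEq V] in
theorem prj_sum {ι : Type} (s : Finset ι) (g : ι → H) :
    prj α lam (∑ i ∈ s, g i) = ∑ i ∈ s, prj α lam (g i) := by
  classical
  induction s using Finset.induction_on with
  | empty => rw [Finset.sum_empty, Finset.sum_empty, prj_zero]
  | insert a s ha ih => rw [Finset.sum_insert ha, Finset.sum_insert ha, prj_add, ih]

theorem prj_om (h : Prj α lam) (v : V) : prj α lam (α v) = α v := by
  rw [prj]
  have h1 : ∀ u, lam (α u⁻¹ * α v) • α u = if u = v then α u else 0 := by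
    intro u
    rw [← map_mul, h.del]
    by_cases huv : u = v
    · rw [if_pos (by rw [huv, inv_mul_cancel]), if_pos huv, one_smul]
    · rw [if_neg (fun h2 => huv (inv_mul_eq_one.1 h2)), if_neg huv, zero_smul]
  rw [Finset.sum_congr rfl fun u _ => h1 u, Finset.sum_ite_eq', if_pos (Finset.mem_univ v)]

theorem prj_conj (h : Prj α lam) (v : V) (a : H) :
    prj α lam (α v * a * α v⁻¹) = prj α lam a := by
  simp only [prj]
  refine Finset.sum_congr rfl fun u _ => ?_
  congr 1
  have h1 : α u⁻¹ * (α v * a * α v⁻¹) = α u⁻¹ * α v * a * α v⁻¹ := by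
    simp only [mul_assoc]
  rw [h1, ← h.inv v⁻¹, ← mul_assoc, ← map_mul, ← map_mul]
  congr 3
  rw [mul_comm u⁻¹ v, inv_mul_cancel_left]

omit [DecidableEq V] in
theorem conj_prj (v : V) (a : H) : α v * prj α lam a * α v⁻¹ = prj α lam a := by
  simp only [prj]
  rw [Finset.mul_sum, Finset.sum_mul]
  refine Finset.sum_congr rfl fun u _ => ?_
  rw [mul_smul_comm, smul_mul_assoc, ← map_mul, ← map_mul]
  congr 2
  rw [mul_comm v u, mul_inv_cancel_right]

end prjs

theorem bi_apply {F V H : Type} [Field F] [CommGroup V] [Ring H] [Algebra F H] (α : V →* H)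
    (v : V) (a : H) : bi F α (v, v) a = α v * a * α v⁻¹ := by
  show α v * (a * α v⁻¹) = α v * a * α v⁻¹
  rw [mul_assoc]

/-- CFD -/
theorem cfd (bkt : BktStmt) : CfdStmt := by
  classical
  intro ℓ _ F V H _ _ _ _ _ _ _ α lam X hP hprj hPS hR
  obtain ⟨Ω, _, _, b, c, ⟨hb, hc, hfr⟩, -⟩ := hPS
  -- the stabilisers
  obtain ⟨R, hRmem⟩ : ∃ R : Ω → Subgroup V, ∀ ω v, v ∈ R ω ↔ ((v, v) : V × V) • ω = ω :=
    ⟨fun ω => (MulAction.stabilizer (V × V) ω).comap
      (MonoidHom.prod (MonoidHom.id V) (MonoidHom.id V)), fun ω v => Iff.rfl⟩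
  have hbω : ∀ ω, ∃ m : H, b ω - prj α lam (b ω) =
      ∑ v ∈ Finset.univ.filter (fun v : V => ((v, v) : V × V) • ω = ω), α v * m * α v⁻¹ := by
    intro ω
    have h1 : b ω ∈ Fx (cj F α) (R ω) := by
      intro v hv
      have h2 := hb (v, v) ω
      rw [(hRmem ω v).1 hv] at h2
      exact h2.symm
    obtain ⟨k, m, hk⟩ := bkt ℓ F V H α hP hR (R ω) (b ω) h1
    have h3 : b ω = ∑ u, k u • α u +
        ∑ v ∈ Finset.univ.filter (fun v : V => ((v, v) : V × V) • ω = ω), α v * m * α v⁻¹ := by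
      rw [hk]
      congr 1
      symm
      refine Finset.sum_subtype _ (fun v => ?_) _
      rw [Finset.mem_filter, hRmem]
      exact ⟨fun h => h.2, fun h => ⟨Finset.mem_univ v, h⟩⟩
    refine ⟨m - prj α lam m, ?_⟩
    have h4 : prj α lam (b ω) = ∑ u, k u • α u +
        ∑ v ∈ Finset.univ.filter (fun v : V => ((v, v) : V × V) • ω = ω), prj α lam m := by
      conv_lhs => rw [h3]
      rw [prj_add, prj_sum, prj_sum]
      congr 1
      · refine Finset.sum_congr rfl fun u _ => ?_
        rw [prj_smul, prj_om hprj]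
      · exact Finset.sum_congr rfl fun v _ => prj_conj hprj v m
    rw [h4]
    conv_lhs => rw [h3]
    rw [add_sub_add_left_eq_sub, ← Finset.sum_sub_distrib]
    refine Finset.sum_congr rfl fun v _ => ?_
    rw [mul_sub, sub_mul, conj_prj]
  choose m hm using hbω
  -- representatives of the orbits
  let st : Setoid Ω :=
    { r := fun ω η => ∃ v : V, ((v, v) : V × V) • ω = η
      iseqv :=
        ⟨fun ω => ⟨1, one_smul (V × V) ω⟩,
          fun {ω η} ⟨v, hv⟩ => ⟨v⁻¹, by
            rw [← hv, smul_smul, Prod.mk_mul_mk, inv_mul_cancel]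
            exact one_smul (V × V) ω⟩,
          fun {ω η ζ} ⟨v, hv⟩ ⟨u, hu⟩ => ⟨u * v, by
            rw [← hu, ← hv, smul_smul, Prod.mk_mul_mk]⟩⟩ }
  obtain ⟨rep, hrep1, hrep2⟩ : ∃ rep : Ω → Ω, (∀ ω, ∃ v : V, ((v, v) : V × V) • rep ω = ω) ∧
      ∀ ω η, (∃ v : V, ((v, v) : V × V) • ω = η) → rep ω = rep η := by
    refine ⟨fun ω => (Quotient.mk st ω).out, fun ω => ?_, fun ω η h => ?_⟩
    · exact Quotient.exact (s := st) (Quotient.out_eq (Quotient.mk st ω))
    · have h1 : Quotient.mk st ω = Quotient.mk st η := Quotient.sound (s := st) h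
      show (Quotient.mk st ω).out = (Quotient.mk st η).out
      rw [h1]
  have hb' : ∀ (v : V) (ω : Ω), b (((v, v) : V × V) • ω) - prj α lam (b (((v, v) : V × V) • ω)) =
      α v * (b ω - prj α lam (b ω)) * α v⁻¹ := by
    intro v ω
    rw [hb, bi_apply, prj_conj hprj, mul_sub, sub_mul, conj_prj]
  -- the sum over the fibre
  have hfib : ∀ η, ∑ v ∈ Finset.univ.filter (fun v : V => ((v, v) : V × V) • rep η = η),
      α v * m (rep η) * α v⁻¹ = b η - prj α lam (b η) := by
    intro η
    obtain ⟨v₀, hv₀⟩ := hrep1 η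
    have h1 := hb' v₀ (rep η)
    rw [hv₀] at h1
    rw [h1, hm (rep η), Finset.mul_sum, Finset.sum_mul]
    symm
    refine Finset.sum_bij (fun p _ => v₀ * p) ?_ ?_ ?_ ?_
    · intro p hp
      rw [Finset.mem_filter] at hp ⊢
      refine ⟨Finset.mem_univ _, ?_⟩
      rw [← Prod.mk_mul_mk, mul_smul, hp.2, hv₀]
    · intro p _ p' _ h
      exact mul_left_cancel h
    · intro v hv
      rw [Finset.mem_filter] at hv
      refine ⟨v₀⁻¹ * v, ?_, by rw [mul_inv_cancel_left]⟩
      rw [Finset.mem_filter]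
      refine ⟨Finset.mem_univ _, ?_⟩
      rw [← Prod.mk_mul_mk, mul_smul, hv.2]
      conv_lhs => rw [← hv₀]
      rw [smul_smul, Prod.mk_mul_mk, inv_mul_cancel]
      exact one_smul (V × V) (rep η)
    · intro p _
      rw [mul_inv_rev, map_mul, map_mul]
      simp only [mul_assoc]
  refine ⟨∑ ω ∈ Finset.univ.filter (fun ω => rep ω = ω), (c ω).smulRight (m ω), fun a => ?_⟩
  have hth : ∀ z : H, (∑ ω ∈ Finset.univ.filter (fun ω => rep ω = ω), (c ω).smulRight (m ω)) z =
      ∑ ω ∈ Finset.univ.filter (fun ω => rep ω = ω), c ω z • m ω := by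
    intro z
    rw [LinearMap.sum_apply]
    rfl
  have hcv : ∀ (v : V) (ω : Ω), c ω (α v⁻¹ * a * α v) = c (((v, v) : V × V) • ω) a := by
    intro v ω
    rw [← hc (v, v) ω, bi_apply]
    congr 1
    have h1 : α v * α v⁻¹ = 1 := by rw [← map_mul, mul_inv_cancel, map_one]
    calc α v * (α v⁻¹ * a * α v) * α v⁻¹ = (α v * α v⁻¹) * a * (α v * α v⁻¹) := by
          simp only [mul_assoc]
      _ = a := by rw [h1, one_mul, mul_one]
  have e1 : ∀ v : V, α v * (∑ ω ∈ Finset.univ.filter (fun ω => rep ω = ω),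
      (c ω).smulRight (m ω)) (α v⁻¹ * a * α v) * α v⁻¹ =
      ∑ ω ∈ Finset.univ.filter (fun ω => rep ω = ω),
        c (((v, v) : V × V) • ω) a • (α v * m ω * α v⁻¹) := by
    intro v
    rw [hth, Finset.mul_sum, Finset.sum_mul]
    refine Finset.sum_congr rfl fun ω _ => ?_
    rw [hcv, mul_smul_comm, smul_mul_assoc]
  rw [Finset.sum_congr rfl fun v _ => e1 v, Finset.sum_comm]
  have e2 : ∀ ω : Ω, ∑ v : V, c (((v, v) : V × V) • ω) a • (α v * m ω * α v⁻¹) =
      ∑ η, c η a • ∑ v ∈ Finset.univ.filter (fun v : V => ((v, v) : V × V) • ω = η),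
        (α v * m ω * α v⁻¹) := by
    intro ω
    rw [← Finset.sum_fiberwise Finset.univ (fun v : V => ((v, v) : V × V) • ω)]
    refine Finset.sum_congr rfl fun η _ => ?_
    rw [Finset.smul_sum]
    refine Finset.sum_congr rfl fun v hv => ?_
    rw [(Finset.mem_filter.1 hv).2]
  rw [Finset.sum_congr rfl fun ω _ => e2 ω, Finset.sum_comm]
  have e3 : ∀ η, ∑ ω ∈ Finset.univ.filter (fun ω => rep ω = ω), c η a •
      ∑ v ∈ Finset.univ.filter (fun v : V => ((v, v) : V × V) • ω = η), (α v * m ω * α v⁻¹) =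
      c η a • (b η - prj α lam (b η)) := by
    intro η
    rw [← Finset.smul_sum]
    congr 1
    rw [Finset.sum_eq_single (rep η)]
    · exact hfib η
    · intro ω hω hne
      refine Finset.sum_eq_zero fun v hv => ?_
      exfalso
      apply hne
      have h1 := hrep2 ω η ⟨v, (Finset.mem_filter.1 hv).2⟩
      rw [← h1]
      exact (Finset.mem_filter.1 hω).2.symm
    · intro h
      exfalso
      apply h
      rw [Finset.mem_filter]
      exact ⟨Finset.mem_univ _, hrep2 (rep η) η (hrep1 η)⟩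
  rw [Finset.sum_congr rfl fun η _ => e3 η]
  have e4 : ∀ η, c η a • (b η - prj α lam (b η)) = c η a • b η - prj α lam (c η a • b η) := by
    intro η
    rw [smul_sub, prj_smul]
  rw [Finset.sum_congr rfl fun η _ => e4 η, Finset.sum_sub_distrib, ← prj_sum, hfr a]

end Pool.Agent.PST.ET.H70
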