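import Pool.Agent.PST.StmtsK4
import Pool.Agent.Helper84_PSS.BCL
import Pool.Agent.Helper84_PST.ZIJ

/-!
# Squad PST, row VTX (helper70): the relation in the centre of `A₀(Q)` given by `r ∈ Q`
-/

open scoped BigOperators

noncomputable section

namespace Pool.Agent.PST.H70

open Pool.Agent.PFC (tw IsTv)
open Pool.Agent.PFD.D2b (FrR)
open Pool.Agent.PSS
open Pool.Agent.PSS.S0 (IsBQ)
open Pool.Agent.PSS.S0.H84 (mem_fx fx_mul fx_anti fx_one bq_sub)
open Pool.Agent.PST.H84 (cw_frame central_fx cw_apply)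

/-- the pointwise stabiliser of `S` in `E` -/
def stE {V E : Type} [CommGroup V] [Group E] (φ : E →* MulAut V) (S : Subgroup V) : Subgroup E where
  carrier := {e | ∀ s ∈ S, φ e s = s}
  one_mem' := by
    intro s _
    rw [map_one]
    rfl
  mul_mem' := by
    intro e e' h h' s hs
    rw [map_mul, MulAut.mul_apply, h' s hs, h s hs]
  inv_mem' := by
    intro e h s hs
    have h1 := h s hs
    rw [map_inv]
    calc (φ e)⁻¹ s = (φ e)⁻¹ (φ e s) := by rw [h1]
      _ = s := MulAut.inv_apply_self _ _ _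

/-- nondegeneracy -/
theorem nondeg {F V A K : Type} [Field F] [CommGroup V] [Fintype V] [Ring A] [Algebra F A]
    [Fintype K] {α : V →* A} {lam : A →ₗ[F] F} {x y : K → A} (h : RF F α lam x y) {z : A}
    (hz : ∀ s, lam (s * z) = 0) : z = 0 := by
  rw [← h.e1 z]
  refine Finset.sum_eq_zero fun k _ => Finset.sum_eq_zero fun v _ => ?_
  rw [hz, zero_smul]

/-- the Brauer map is additive on finite sums -/
theorem bq_sum {F V A B ι : Type} [Field F] [CommGroup V] [Ring A] [Algebra F A] [Ring B]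
    [Algebra F B] {α : V →* A} {Q : Subgroup V} {αB : V →* B} {β : A → B}
    (h : IsBQ F α Q αB β) (s : Finset ι) (f : ι → A) (hf : ∀ i ∈ s, f i ∈ FxR (cw F α) Q) :
    β (∑ i ∈ s, f i) = ∑ i ∈ s, β (f i) := by
  classical
  induction s using Finset.induction_on with
  | empty =>
    rw [Finset.sum_empty, Finset.sum_empty]
    exact (h.ker 0 (Submodule.zero_mem _)).2 (Submodule.zero_mem _)
  | insert a s ha ih =>
    rw [Finset.sum_insert ha, Finset.sum_insert ha,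
      h.add _ (hf a (Finset.mem_insert_self a s)) _
        (Submodule.sum_mem _ fun i hi => hf i (Finset.mem_insert_of_mem hi)),
      ih fun i hi => hf i (Finset.mem_insert_of_mem hi)]

theorem bq_pow {F V A B : Type} [Field F] [CommGroup V] [Ring A] [Algebra F A] [Ring B]
    [Algebra F B] {α : V →* A} {Q : Subgroup V} {αB : V →* B} {β : A → B}
    (h : IsBQ F α Q αB β) {a : A} (ha : a ∈ FxR (cw F α) Q) (n : ℕ) :
    a ^ n ∈ FxR (cw F α) Q ∧ β (a ^ n) = β a ^ n := by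
  induction n with
  | zero =>
    rw [pow_zero, pow_zero]
    exact ⟨fx_one α Q, h.one⟩
  | succ n ih =>
    rw [pow_succ, pow_succ]
    exact ⟨fx_mul α Q ih.1 ha, by rw [h.mul _ ih.1 _ ha, ih.2]⟩

theorem xe_fx {F V A : Type} [Field F] [CommGroup V] [Fintype V] [Ring A] [Algebra F A]
    (α : V →* A) (P : Subgroup V) (p : V → F) : Xe α p ∈ FxR (cw F α) P := by
  rw [mem_fx]
  intro q _
  rw [Xe, Finset.mul_sum, Finset.sum_mul]
  refine Finset.sum_congr rfl fun v _ => ?_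
  rw [mul_smul_comm, smul_mul_assoc, ← map_mul, ← map_mul, mul_comm]

theorem rt_central {F V A K : Type} [Field F] [CommGroup V] [Fintype V] [Ring A] [Algebra F A]
    [Fintype K] {α : V →* A} {lam : A →ₗ[F] F} {x y : K → A} (zrt : S0.ZrtStmt)
    (h : RF F α lam x y) {a : A} (ha : a ∈ FxR (cw F α) ⊤) (c : A) :
    rt x y a * c = c * rt x y a := (zrt F V A K α lam x y h a ha c).symm

theorem one_fx {F V A : Type} [Field F] [CommGroup V] [Ring A] [Algebra F A] (α : V →* A)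
    (P : Subgroup V) : (1 : A) ∈ FxR (cw F α) P := fx_one α P

/-- VTX -/
theorem vtx (zun : ZunStmt) (bqt : BqtStmt) (mco : McoStmt) (ndi : NdiStmt) (vta : VtaStmt)
    (bcl : S0.BclStmt) (bbk : S0.BbkStmt) (fco : S0.FcoStmt) (fbk : S0.FbkStmt)
    (zrt : S0.ZrtStmt) : VtxStmt := by
  classical
  intro ℓ _ F V E A Br BQ K KB KQ _ _ _ _ _ _ _ _ _ _ _ _ _ _ _ φ α lam x y W n la χ xx t D r
    αB β lamB xB yB αQ βQ lamQ xQ yQ δ w hP hE hch hcl hrf hd hrQ hrW hB hrfB hlB hQ hrfQ hlQ hδ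
    hδW hYc hδY hwc hw
  have hl : (ℓ : F) = 0 := CharP.cast_eq_zero F ℓ
  have hPQ : Subgroup.zpowers r ≤ QW0 φ W := by
    rw [Subgroup.zpowers_le]
    exact hrQ
  -- the centraliser of `r`
  have hst : ∀ e : stE φ (Subgroup.zpowers r), ∀ u, φ e u * u⁻¹ ∈ W := by
    intro e
    refine hch.fr e r hrW ?_
    rw [e.2 r (Subgroup.mem_zpowers r), mul_inv_cancel]
    exact W.one_mem
  have hcent : ∀ e : stE φ (Subgroup.zpowers r), ∀ q ∈ QW0 φ W,
      φ.comp (stE φ (Subgroup.zpowers r)).subtype e q = q := fun e q hq => hq e (hst e)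
  have hla : ∀ (l : Fin n) (e : stE φ (Subgroup.zpowers r)) (v : V),
      la l (φ.comp (stE φ (Subgroup.zpowers r)).subtype e v) = la l v := by
    intro l e v
    have h1 : la l (φ e v * v⁻¹ * v) = la l (φ e v * v⁻¹) + la l v := hd.eg.add l _ _
    rw [(hd.eg.ker _).1 (hst e v) l, inv_mul_cancel_right, zero_add] at h1
    exact h1
  have hadc : ∀ l, Adc (φ.comp (stE φ (Subgroup.zpowers r)).subtype) (la l) := fun l =>
    ⟨hd.eg.add l, hla l⟩
  have hclB : Cl F (φ.comp (stE φ (Subgroup.zpowers r)).subtype) αB :=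
    bcl ℓ F V E A Br φ α _ αB β _ hP hE hcl hB fun e => Iff.rfl
  have hcard : ¬ ℓ ∣ Nat.card (stE φ (Subgroup.zpowers r)) := fun h =>
    hE (h.trans (Subgroup.card_subgroup_dvd_card _))
  have hclQ : Cl F (φ.comp (stE φ (QW0 φ W)).subtype) αQ :=
    bcl ℓ F V E A BQ φ α _ αQ βQ _ hP hE hcl hQ fun e => Iff.rfl
  -- the relation in `Br`
  obtain ⟨a, y₀, Dl, ha, h1, hDl, hDv, hsum⟩ := vta ℓ F V _ Br KB
    (φ.comp (stE φ (Subgroup.zpowers r)).subtype) αB lamB xB yB W n la δ (β (D r)) hclB.per hrfB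
    hch.pw hadc hδ hδW hYc hδY fun μ hμ hμW => ⟨fun l => ∑ u, xx l u * μ u, fun v => hd.eg.spn μ hμ hμW v⟩
  -- the second Brauer map
  obtain ⟨β', hβ', hββ⟩ := bqt ℓ F V E A Br BQ K φ α lam x y (Subgroup.zpowers r) (QW0 φ W) αB β
    αQ βQ hP hcl.per hrf hB hQ hPQ
  have hsup : QW0 φ W ⊔ Subgroup.zpowers r = QW0 φ W := sup_eq_left.2 hPQ
  have hbk := fun P : Subgroup V => bbk ℓ F V E A Br K φ α (Subgroup.zpowers r) αB β lam x y P hl
    hP hcl.per hrf hB
  have hfxB : ∀ z ∈ FxR (cw F α) (QW0 φ W), β z ∈ FxR (cw F αB) (QW0 φ W) := by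
    intro z hz
    rw [← hsup] at hz
    exact ((hbk (QW0 φ W)).1 z hz).1
  have hlQ' : ∀ s ∈ FxR (cw F αB) (QW0 φ W), lamQ (β' s) = lamB s := by
    intro s hs
    obtain ⟨b, hb, rfl⟩ := (hbk (QW0 φ W)).2 s hs
    rw [hsup] at hb
    rw [hββ b hb, hlQ b hb, hlB b (fx_anti α hPQ hb)]
  have haQ : ∀ l, a l ∈ FxR (cw F αB) (QW0 φ W) := fun l => fx_anti αB le_top (ha l)
  -- (1)
  have hwu : ∀ u ∈ QW0 φ W, w u = ∑ l, la l u • β' (a l) := by
    intro u hu
    refine sub_eq_zero.1 (nondeg hrfQ fun s => ?_)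
    obtain ⟨z, hz, rfl⟩ := hQ.surj s
    have hβz := hfxB z hz
    have e1 : lamB (β z * (αB u * y₀ * αB u⁻¹ - y₀)) = 0 := by
      have e2 : αB u * β z = β z * αB u := (mem_fx αB _ _).1 hβz u hu
      rw [mul_sub, map_sub]
      have e3 : β z * (αB u * y₀ * αB u⁻¹) = αB u * (β z * y₀ * αB u⁻¹) := by
        rw [← mul_assoc, ← mul_assoc, ← mul_assoc, ← mul_assoc, e2]
      rw [e3, hrfB.sym, mul_assoc, ← map_mul, inv_mul_cancel, map_one, mul_one, sub_self]
    have e4 : lamQ (βQ z * w u) = ∑ l, la l u * lamB (β z * a l) := by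
      rw [← hw u hu z hz, h1 u, mul_add, map_add, e1, add_zero, Finset.mul_sum, map_sum]
      refine Finset.sum_congr rfl fun l _ => ?_
      rw [mul_smul_comm, map_smul, smul_eq_mul]
    have e5 : ∀ l, lamB (β z * a l) = lamQ (βQ z * β' (a l)) := by
      intro l
      rw [← hlQ' _ (fx_mul αB _ hβz (haQ l)), hβ'.mul _ hβz _ (haQ l), hββ z hz]
    rw [mul_sub, map_sub, e4, Finset.mul_sum, map_sum, ← Finset.sum_sub_distrib]
    refine Finset.sum_eq_zero fun l _ => ?_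
    rw [mul_smul_comm, map_smul, smul_eq_mul, e5, sub_self]
  have hcl' : ∀ l, ∑ u, xx l u • w u = β' (a l) := by
    intro l
    have e1 : ∀ u, xx l u • w u = ∑ k, (xx l u * la k u) • β' (a k) := by
      intro u
      by_cases hu : u ∈ QW0 φ W
      · rw [hwu u hu, Finset.smul_sum]
        exact Finset.sum_congr rfl fun k _ => smul_smul _ _ _
      · rw [hd.eg.qs l u hu, zero_smul]
        refine (Finset.sum_eq_zero fun k _ => ?_).symm
        rw [zero_mul, zero_smul]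
    rw [Finset.sum_congr rfl fun u _ => e1 u, Finset.sum_comm]
    have e2 : ∀ k, ∑ u, (xx l u * la k u) • β' (a k) = if l = k then β' (a k) else 0 := by
      intro k
      rw [← Finset.sum_smul, hd.eg.xl l k]
      split_ifs
      · rw [one_smul]
      · rw [zero_smul]
    rw [Finset.sum_congr rfl fun k _ => e2 k, Finset.sum_ite_eq, if_pos (Finset.mem_univ l)]
  have hcc : ∀ l s, β' (a l) * s = s * β' (a l) := by
    intro l s
    rw [← hcl' l, Finset.sum_mul, Finset.mul_sum]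
    refine Finset.sum_congr rfl fun u _ => ?_
    by_cases hu : u ∈ QW0 φ W
    · rw [smul_mul_assoc, mul_smul_comm, hwc u hu s]
    · rw [hd.eg.qs l u hu, zero_smul, zero_mul, mul_zero]
  -- (2)
  have hmco : ∀ b ∈ FxR (cw F αB) ⊤, β' (rt xB yB b) = rt xQ yQ (β' b) :=
    mco ℓ F V _ Br BQ KB KQ (φ.comp (stE φ (Subgroup.zpowers r)).subtype) αB (QW0 φ W) αQ β' lamB
      xB yB lamQ xQ yQ hP hclB.per hclB.uni hrfB hβ' hrfQ hlQ' hcent
  have hζ : β' (rt xB yB 1) = rt xQ yQ 1 := by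
    rw [hmco 1 (one_fx αB ⊤), hβ'.one]
  have hζc : ∀ s, rt xQ yQ 1 * s = s * rt xQ yQ 1 := fun s =>
    rt_central zrt hrfQ (one_fx αQ ⊤) s
  have hζBc : ∀ s, rt xB yB 1 * s = s * rt xB yB 1 := fun s =>
    rt_central zrt hrfB (one_fx αB ⊤) s
  have hrta : ∀ l, β' (rt xB yB (a l)) = β' (a l) * rt xQ yQ 1 := by
    intro l
    rw [hmco _ (ha l), rt, rt, Finset.mul_sum]
    refine Finset.sum_congr rfl fun k _ => ?_
    rw [mul_one, ← hcc l (xQ k), mul_assoc]
  -- (3)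
  have hpl : ∀ l, ∑ v, pg la xx t r v * la l v = t l * la l r := by
    intro l
    have e1 : ∀ v, pg la xx t r v * la l v = ∑ k, t k * la k r * (xx k v * la l v) := by
      intro v
      rw [pg, Finset.sum_mul]
      exact Finset.sum_congr rfl fun k _ => by ring
    rw [Finset.sum_congr rfl fun v _ => e1 v, Finset.sum_comm]
    have e2 : ∀ k, ∑ v, t k * la k r * (xx k v * la l v) = if k = l then t k * la k r else 0 := by
      intro k
      rw [← Finset.mul_sum, hd.eg.xl k l]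
      split_ifs
      · rw [mul_one]
      · rw [mul_zero]
    rw [Finset.sum_congr rfl fun k _ => e2 k, Finset.sum_ite_eq', if_pos (Finset.mem_univ l)]
  have hDfx : D r - Xe α (pg la xx t r) ∈ FxR (cw F α) ⊤ :=
    Submodule.sub_mem _ (hd.fx r) (xe_fx α ⊤ _)
  have hDbk : D r - Xe α (pg la xx t r) ∈ BKR (cw F α) ⊤ := by
    obtain ⟨Ω, _, _, b, c, hfr⟩ := cw_frame hcl.per
    refine fbk F V A Ω (cw F α) b c hfr ⊤ _ hDfx ?_
    intro ω hω
    exact fco ℓ F V A Ω (cw F α) b c hl hP hfr (QW0 φ W) _ (hd.bk r) ω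
      (fun h _ => hω h (Subgroup.mem_top h))
  have hYbk : β (D r) - Xe αB (pg la xx t r) ∈ BKR (cw F αB) ⊤ := by
    have e1 := ((hbk ⊤).1 (D r - Xe α (pg la xx t r)) (by rw [top_sup_eq]; exact hDfx)).2
    rw [top_sup_eq] at e1
    have e2 := e1.2 hDbk
    have e3 : β (D r - Xe α (pg la xx t r)) = β (D r) - Xe αB (pg la xx t r) := by
      rw [bq_sub hB (fx_anti α le_top (hd.fx r)) (xe_fx α _ _)]
      congr 1
      rw [Xe, bq_sum hB]
      · refine Finset.sum_congr rfl fun v _ => ?_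
        rw [hB.smul _ _ ?_, hB.om]
        rw [mem_fx]
        intro q _
        rw [← map_mul, ← map_mul, mul_comm]
      · intro v _
        refine Submodule.smul_mem _ _ ?_
        rw [mem_fx]
        intro q _
        rw [← map_mul, ← map_mul, mul_comm]
    rw [e3] at e2
    exact e2
  have hN : ∀ l, (∀ b, Dl l (β (D r)) * b = b * Dl l (β (D r))) ∧
      IsNilpotent (Dl l (β (D r)) - (t l * la l r) • rt xB yB 1) := by
    intro l
    have e1 := ndi ℓ F V _ Br KB (φ.comp (stE φ (Subgroup.zpowers r)).subtype) αB lamB xB yB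
      (la l) (Dl l) (pg la xx t r) (β (D r)) hP hcard hclB hrfB (hadc l) (hDl l) (hDv l) hYc hYbk
    rw [hpl l] at e1
    exact e1
  -- (4)
  obtain ⟨u₀, hu₀⟩ := zun F V _ BQ KQ (φ.comp (stE φ (QW0 φ W)).subtype) αQ lamQ xQ yQ hclQ hrfQ
  have hu₁ : rt xQ yQ 1 * u₀ = 1 := by rw [hζc, hu₀]
  have hu₀c : ∀ s, u₀ * s = s * u₀ := by
    intro s
    calc u₀ * s = u₀ * s * (rt xQ yQ 1 * u₀) := by rw [hu₁, mul_one]
      _ = u₀ * (s * rt xQ yQ 1) * u₀ := by simp only [mul_assoc]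
      _ = u₀ * (rt xQ yQ 1 * s) * u₀ := by rw [hζc]
      _ = u₀ * rt xQ yQ 1 * s * u₀ := by simp only [mul_assoc]
      _ = s * u₀ := by rw [hu₀, one_mul]
  have hNc : ∀ l b, (Dl l (β (D r)) - (t l * la l r) • rt xB yB 1) * b =
      b * (Dl l (β (D r)) - (t l * la l r) • rt xB yB 1) := by
    intro l b
    rw [sub_mul, mul_sub, (hN l).1 b, smul_mul_assoc, mul_smul_comm, hζBc b]
  have hfxc : ∀ z : Br, (∀ b, z * b = b * z) → z ∈ FxR (cw F αB) (QW0 φ W) := fun z hz =>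
    central_fx αB _ z hz
  obtain ⟨N, hNdef⟩ : ∃ N : Fin n → Br,
      N = fun l => Dl l (β (D r)) - (t l * la l r) • rt xB yB 1 := ⟨_, rfl⟩
  have hNl : ∀ l, N l = Dl l (β (D r)) - (t l * la l r) • rt xB yB 1 := fun l => by rw [hNdef]
  have hNfx : ∀ l, N l ∈ FxR (cw F αB) (QW0 φ W) := fun l => by
    rw [hNl]
    exact hfxc _ (hNc l)
  have hN'c : ∀ l s, β' (N l) * s = s * β' (N l) := by
    intro l s
    obtain ⟨b, hb, rfl⟩ := hβ'.surj s
    rw [← hβ'.mul _ (hNfx l) _ hb, ← hβ'.mul _ hb _ (hNfx l), hNl, hNc l b]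
  have hβ0 : β' 0 = 0 := (hβ'.ker 0 (Submodule.zero_mem _)).2 (Submodule.zero_mem _)
  have hN'n : ∀ l, IsNilpotent (β' (N l)) := by
    intro l
    obtain ⟨k, hk⟩ := (hN l).2
    refine ⟨k, ?_⟩
    rw [← (bq_pow hβ' (hNfx l) k).2, hNl, hk, hβ0]
  have hDN : ∀ l, β' (Dl l (β (D r))) = (t l * la l r) • rt xQ yQ 1 + β' (N l) := by
    intro l
    have e1 : Dl l (β (D r)) = (t l * la l r) • rt xB yB 1 + N l := by
      rw [hNl]
      abel
    have e2 : rt xB yB 1 ∈ FxR (cw F αB) (QW0 φ W) := hfxc _ hζBc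
    rw [e1, hβ'.add _ (Submodule.smul_mem _ _ e2) _ (hNfx l), hβ'.smul _ _ e2, hζ]
  have hrel : ∑ l, ((t l * la l r) • rt xQ yQ 1 + β' (N l)) * (β' (a l) * rt xQ yQ 1) = 0 := by
    have e1 : β' (∑ l, Dl l (β (D r)) * rt xB yB (a l)) = 0 := by rw [hsum, hβ0]
    have e2 : ∀ l, rt xB yB (a l) ∈ FxR (cw F αB) (QW0 φ W) := fun l =>
      hfxc _ (rt_central zrt hrfB (ha l))
    have e3 : ∀ l, Dl l (β (D r)) ∈ FxR (cw F αB) (QW0 φ W) := fun l => hfxc _ (hN l).1
    rw [bq_sum hβ' _ _ fun l _ => fx_mul αB _ (e3 l) (e2 l)] at e1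
    rw [← e1]
    refine Finset.sum_congr rfl fun l _ => ?_
    rw [hβ'.mul _ (e3 l) _ (e2 l), hDN, hrta]
  refine ⟨fun l => u₀ * β' (N l), fun l => ⟨?_, ?_⟩, ?_⟩
  · obtain ⟨k, hk⟩ := hN'n l
    refine ⟨k, ?_⟩
    rw [Commute.mul_pow (hu₀c _), hk, mul_zero]
  · intro s
    rw [mul_assoc, hN'c l s, ← mul_assoc, hu₀c s, mul_assoc]
  · have e1 : ∀ l, (algebraMap F BQ (t l * la l r) + u₀ * β' (N l)) * ∑ u, xx l u • w u =
        u₀ * (((t l * la l r) • rt xQ yQ 1 + β' (N l)) * (β' (a l) * rt xQ yQ 1)) * u₀ := by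
      intro l
      rw [hcl' l]
      calc (algebraMap F BQ (t l * la l r) + u₀ * β' (N l)) * β' (a l)
          = (u₀ * ((t l * la l r) • rt xQ yQ 1 + β' (N l))) * β' (a l) := by
            rw [mul_add, mul_smul_comm, hu₀, Algebra.algebraMap_eq_smul_one]
        _ = (u₀ * ((t l * la l r) • rt xQ yQ 1 + β' (N l))) * β' (a l) * (rt xQ yQ 1 * u₀) := by
            rw [hu₁, mul_one]
        _ = _ := by simp only [mul_assoc]
    rw [Finset.sum_congr rfl fun l _ => e1 l, ← Finset.sum_mul, ← Finset.mul_sum, hrel, mul_zero,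
      zero_mul]

end Pool.Agent.PST.H70
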